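import Pool.Agent.W945.Pw.Stm2

set_option autoImplicit false

namespace Pool.Agent.W319.Pw.EXC

open Finset Pool.Agent.W945.Pw

theorem mono {V : Type} {R R' : V → V → Prop} {W : Finset V} {β β' : ℝ}
    (h : HasPathDec R W β) (hR : ∀ u ∈ W, ∀ v ∈ W, R' u v → R u v) (hb : β ≤ β') :
    HasPathDec R' W β' := by
  obtain ⟨r, bag, h1, h2, h3, h4, h5⟩ := h
  exact ⟨r, bag, h1, h2, fun u hu v hv huv => h3 u hu v hv (hR u hu v hv huv), h4,
    fun t => (h5 t).trans hb⟩

theorem empty {V : Type} (R : V → V → Prop) : HasPathDec R (∅ : Finset V) 0 := by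
  refine ⟨0, fun _ => ∅, fun _ => subset_rfl, ?_, ?_, ?_, ?_⟩
  · intro v hv
    simp at hv
  · intro u hu
    simp at hu
  · intro v t₁ t₂ t₃ _ _ h
    simp at h
  · intro t
    simp

theorem logb (s j a : ℕ) (hs : s ≤ 2 ^ j) (ha : a ≤ s) :
    1 * (1 + Real.log (a : ℝ) / Real.log (1 / (2 / 3))) ≤ 1 + 2 * (j : ℝ) := by
  have h32 : (1 : ℝ) / (2 / 3) = 3 / 2 := by norm_num
  rw [h32, one_mul]
  have hl : 0 < Real.log (3 / 2) := Real.log_pos (by norm_num)
  have h2 : Real.log 2 ≤ 2 * Real.log (3 / 2) := by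
    have : 2 * Real.log (3 / 2) = Real.log ((3 / 2) ^ 2) := by
      rw [Real.log_pow]
      norm_num
    rw [this]
    exact Real.log_le_log (by norm_num) (by norm_num)
  have h3 : Real.log (a : ℝ) ≤ j * Real.log 2 := by
    rcases Nat.eq_zero_or_pos a with h0 | h0
    · subst h0
      have : 0 ≤ (j : ℝ) * Real.log 2 := mul_nonneg (Nat.cast_nonneg j) (Real.log_nonneg (by norm_num))
      simpa using this
    · have hc : (a : ℝ) ≤ 2 ^ j := by exact_mod_cast ha.trans hs
      calc Real.log (a : ℝ) ≤ Real.log (2 ^ j) :=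
            Real.log_le_log (by exact_mod_cast h0) hc
        _ = j * Real.log 2 := Real.log_pow _ _
  have h4 : Real.log (a : ℝ) ≤ 2 * (j : ℝ) * Real.log (3 / 2) := by
    have := mul_le_mul_of_nonneg_left h2 (Nat.cast_nonneg (α := ℝ) j)
    linarith
  have h5 : Real.log (a : ℝ) / Real.log (3 / 2) ≤ 2 * (j : ℝ) := (div_le_iff₀ hl).2 h4
  linarith

theorem main : EXC.Stm := by
  intro hSEP hGROUP hTREE hUSED hCOUNT n s t j C o hsize hs
  obtain ⟨π, S, hS, hπ⟩ := hCOUNT n s C o
  obtain ⟨C', hval, hwire⟩ := hUSED n s C o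
  refine ⟨C', hval, ?_⟩
  have hScard : S.card ≤ t + 1 := by omega
  set R : Fin s → Fin s → Prop := fun u v => C'.Wire u v ∧ u ∉ S with hR
  have hRπ : ∀ u v, R u v → v = π u ∧ u < v := by
    intro u v huv
    obtain ⟨hw, hu⟩ := huv
    obtain ⟨hw1, hw2⟩ := (hwire u v).1 hw
    constructor
    · rcases hπ u v hw1 hw2 with h | h
      · exact absurd h hu
      · exact h
    · obtain ⟨g, a, b, hg, hab⟩ := hw
      have := C'.acyclic v g a b hg
      rcases hab with rfl | rfl
      · exact this.1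
      · exact this.2
  have hsep := hTREE hGROUP s R π hRπ
  have hpd := hSEP (Fin s) R (2 / 3) 1 (by norm_num) (by norm_num) (by norm_num) hsep (univ \ S)
  have hcard : (univ \ S : Finset (Fin s)).card ≤ s := by
    calc (univ \ S : Finset (Fin s)).card ≤ (univ : Finset (Fin s)).card :=
          card_le_card sdiff_subset
      _ = s := by simp
  have hA : HasPathDec C'.Wire (univ \ S) (1 + 2 * (j : ℝ)) := by
    refine mono hpd ?_ (logb s j _ hs hcard)
    intro u hu v _ huv
    exact ⟨huv, (mem_sdiff.1 hu).2⟩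
  have hSr : (S.card : ℝ) ≤ t + 1 := by exact_mod_cast hScard
  refine Pool.Agent.W778.Pw.SEP.glue C'.Wire univ (univ \ S) S ∅ (1 + 2 * (j : ℝ)) 0 _ ?_ ?_ hA
    (empty _) ?_ ?_ ?_
  · intro v
    simp only [mem_univ, mem_sdiff, true_and, notMem_empty, or_false, true_iff]
    exact (em (v ∈ S)).symm
  · intro u _ v hv
    simp at hv
  · push_cast
    linarith
  · push_cast
    have : (0 : ℝ) ≤ j := Nat.cast_nonneg j
    linarith
  · push_cast
    have : (0 : ℝ) ≤ j := Nat.cast_nonneg j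
    linarith

end Pool.Agent.W319.Pw.EXC
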